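import Pool.Agent.L7h3.QX.Stm2
import Pool.Agent.L7h3.QE.Eq
import Pool.Agent.L7h3.GX.Cond

/-!
# Project QX (helper3), CRX (helper97): the class and the criterion
-/

set_option autoImplicit false
set_option linter.unusedSectionVars false
set_option linter.unusedVariables false

namespace Pool.Agent.L7h97.QX

open scoped Classical
open Finset
open Pool.Agent.L7h3.QE (sqf_nd)
open Pool.Agent.L7h3.QX
open Pool.Agent.L7h3.GX (Sol Gd ClsG nrm_int isCoprime_of_sqf)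
open Pool.Agent.Y699
open H385 (ZI RQ im1 nrm)
open Pool.Agent.W164.RC (two2 prim_iff_dvd unit_norm unit_cases)
open Pool.Agent.H304R2.EC.A1 (prim prim_mul prim_cancel prim_one prim_norm_odd prim_star eq_one_of_prim
  norm_def' re_mul' im_mul' eq_of_dvd prim_ne_zero exists_prim)

lemma four_dvd_iff (z : ZI) : (4 : ZI) ∣ z ↔ z.re % 4 = 0 ∧ z.im % 4 = 0 := by
  have h := Zsqrtd.intCast_dvd (d := -1) 4 z
  have e : ((4 : ℤ) : ZI) = (4 : ZI) := by norm_cast
  rw [e] at h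
  rw [h]
  constructor
  · rintro ⟨h1, h2⟩; omega
  · rintro ⟨h1, h2⟩; omega

lemma prim_of_four {d : ZI} (h : (4 : ZI) ∣ d - 1) : prim d := by
  rw [four_dvd_iff] at h
  obtain ⟨h1, h2⟩ := h
  have e1 : (d - 1).re = d.re - 1 := by simp
  have e2 : (d - 1).im = d.im := by simp
  rw [e1] at h1
  rw [e2] at h2
  exact ⟨by omega, by omega⟩

lemma prim_norm8 {z : ZI} (h : prim z) :
    (z.im % 4 = 0 ∧ z.norm % 8 = 1) ∨ (z.im % 4 = 2 ∧ z.norm % 8 = 5) := by
  obtain ⟨h1, h2⟩ := h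
  rw [norm_def']
  obtain ⟨m, hm⟩ : ∃ m, z.re = 2 * m + 1 := ⟨z.re / 2, by omega⟩
  obtain ⟨y, hy⟩ : ∃ y, z.im = 2 * y := ⟨z.im / 2, by omega⟩
  have h4 : (m * m + m) % 2 = 0 := by
    have : m * m + m = m * (m + 1) := by ring
    rw [this]
    exact Int.even_iff.1 (Int.even_mul_succ_self m)
  by_cases h : z.im % 4 = 0
  · left
    refine ⟨h, ?_⟩
    obtain ⟨t, ht⟩ : ∃ t, y = 2 * t := ⟨y / 2, by omega⟩
    have e : z.re ^ 2 + z.im ^ 2 = 1 + 4 * (m * m + m) + 16 * (t * t) := by rw [hm, hy, ht]; ring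
    rw [e]
    omega
  · right
    refine ⟨by omega, ?_⟩
    obtain ⟨t, ht⟩ : ∃ t, y = 2 * t + 1 := ⟨y / 2, by omega⟩
    have e : z.re ^ 2 + z.im ^ 2 = 5 + 4 * (m * m + m) + 16 * (t * t + t) := by rw [hm, hy, ht]; ring
    rw [e]
    omega

lemma four_iff_wx {d : ZI} (h : prim d) : (4 : ZI) ∣ d - 1 ↔ wx d = 0 := by
  rw [four_dvd_iff]
  have e1 : (d - 1).re = d.re - 1 := by simp
  have e2 : (d - 1).im = d.im := by simp
  rw [e1, e2]
  unfold wx
  rcases prim_norm8 h with ⟨h1, h2⟩ | ⟨h1, h2⟩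
  · rw [if_neg (by omega)]
    obtain ⟨h3, h4⟩ := h
    constructor
    · intro _; rfl
    · intro _; omega
  · rw [if_pos h2]
    constructor
    · rintro ⟨h3, h4⟩; omega
    · intro h3; exact absurd h3 one_ne_zero

lemma wx_mul {a b : ZI} (ha : prim a) (hb : prim b) : wx (a * b) = wx a + wx b := by
  have h11 : (1 : ZMod 2) + 1 = 0 := by decide
  unfold wx
  rw [Zsqrtd.norm_mul]
  rcases prim_norm8 ha with ⟨_, h1⟩ | ⟨_, h1⟩ <;> rcases prim_norm8 hb with ⟨_, h2⟩ | ⟨_, h2⟩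
  · rw [if_neg, if_neg (by omega), if_neg (by omega), add_zero]
    rw [Int.mul_emod, h1, h2]; decide
  · rw [if_pos, if_neg (by omega), if_pos h2, zero_add]
    rw [Int.mul_emod, h1, h2]; decide
  · rw [if_pos, if_pos h1, if_neg (by omega), add_zero]
    rw [Int.mul_emod, h1, h2]; decide
  · rw [if_neg, if_pos h1, if_pos h2, h11]
    rw [Int.mul_emod, h1, h2]; decide

lemma wx_one : wx 1 = 0 := by
  unfold wx
  rw [if_neg]
  decide

lemma wx_prod {S : Finset ZI} (hS : ∀ π ∈ S, prim π) : wx (∏ π ∈ S, π) = ∑ π ∈ S, wx π := by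
  induction S using Finset.induction_on with
  | empty => rw [Finset.prod_empty, Finset.sum_empty, wx_one]
  | insert a s ha ih =>
    have hs : ∀ π ∈ s, prim π := fun π hπ => hS π (Finset.mem_insert_of_mem hπ)
    rw [Finset.prod_insert ha, Finset.sum_insert ha, wx_mul (hS a (Finset.mem_insert_self _ _)) ?_,
      ih hs]
    exact Finset.prod_induction _ prim (fun a b => prim_mul) prim_one hs

/-- the system -/
def SolK (k : ℕ) (S : Finset ZI) (v : ZI → ZMod 2) : Prop :=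
  ∀ π ∈ S, ∑ ρ ∈ S, ep π ρ * (v ρ - v π) - (k : ZMod 2) * wx π * v π = 0

lemma im1_pow_norm (k : ℕ) : (im1 ^ k : ZI).norm = 1 := by
  induction k with
  | zero => rw [pow_zero]; decide
  | succ n ih => rw [pow_succ, Zsqrtd.norm_mul, ih, im1_norm]; norm_num

lemma im1_isUnit (k : ℕ) : IsUnit (im1 ^ k : ZI) :=
  (Zsqrtd.isUnit_iff_norm_isUnit _).2 (by rw [im1_pow_norm]; exact isUnit_one)

lemma ep_symm {π ρ : ZI} (h1 : PP π) (h2 : PP ρ) : ep π ρ = ep ρ π := by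
  unfold ep
  rw [qr_rec h1 h2]

lemma qr_im_sg {π : ZI} (h : PP π) (k : ℕ) :
    qr π (im1 ^ k) = sg ((k : ZMod 2) * wx π) := by
  have h1 : qr π im1 = sg (wx π) := by
    rw [qr_im h]
    unfold wx
    rcases prim_norm8 h.prm with ⟨_, h1⟩ | ⟨_, h1⟩
    · rw [if_pos h1, if_neg (by omega)]; rfl
    · rw [if_neg (by omega), if_pos h1]; rfl
  induction k with
  | zero =>
    rw [pow_zero, qr_one h, Nat.cast_zero, zero_mul]
    rfl
  | succ n ih =>
    rw [pow_succ, qr_mul h, ih, h1, ← sg_add]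
    congr 1
    push_cast
    ring

lemma not_dvd_im1 {π : ZI} (h : Prime π) (k : ℕ) (a : ZI) : π ∣ im1 ^ k * a ↔ π ∣ a :=
  (im1_isUnit k).dvd_mul_left

/-- the conditions are equivalent to a solution of the system -/
lemma cond_sol {d e : ZI} (hd : PS d) (he : PS e) (hco : IsCoprime d e) (k : ℕ) :
    ((∀ π ∈ PD d, qr π (im1 ^ k * e) = 1) ∧ ∀ π ∈ PD e, qr π d = 1) ↔
      SolK k (PD d ∪ PD e) (fun π => if π ∈ PD d then 1 else 0) := by
  have hdisj : Disjoint (PD d) (PD e) := PD_disj hd.ne he.ne hco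
  have hnd : ∀ π ∈ PD d, ∀ u ∈ PD e, ¬ π ∣ u := by
    intro π hπ u hu hdv
    have e := ((mem_PD hd.ne).1 hπ).1.eq_of_dvd ((mem_PD he.ne).1 hu).1 hdv
    exact Finset.disjoint_left.1 hdisj hπ (by rw [e]; exact hu)
  have hnd' : ∀ π ∈ PD e, ∀ u ∈ PD d, ¬ π ∣ u := by
    intro π hπ u hu hdv
    have e := ((mem_PD he.ne).1 hπ).1.eq_of_dvd ((mem_PD hd.ne).1 hu).1 hdv
    exact Finset.disjoint_left.1 hdisj (by rw [← e] at hu; exact hu) hπ
  have hneg : ∀ a : ZMod 2, a * (0 - 1) = a := by decide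
  have hneg' : ∀ a : ZMod 2, a * (1 - 0) = a := by decide
  have sgi : ∀ a : ZMod 2, sg a = 1 ↔ a = 0 := by decide
  have c1 : ∀ π ∈ PD d, (qr π (im1 ^ k * e) = 1 ↔
      ∑ ρ ∈ PD d ∪ PD e, ep π ρ * ((if ρ ∈ PD d then (1 : ZMod 2) else 0) -
        if π ∈ PD d then 1 else 0) - (k : ZMod 2) * wx π * (if π ∈ PD d then 1 else 0) = 0) := by
    intro π hπd
    have hP := ((mem_PD hd.ne).1 hπd).1
    rw [Finset.sum_union hdisj]
    have e1 : ∑ ρ ∈ PD d, ep π ρ * ((if ρ ∈ PD d then (1 : ZMod 2) else 0) -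
          if π ∈ PD d then 1 else 0) = 0 := by
      refine Finset.sum_eq_zero fun ρ hρ => ?_
      rw [if_pos hρ, if_pos hπd, sub_self, mul_zero]
    have e2 : ∑ ρ ∈ PD e, ep π ρ * ((if ρ ∈ PD d then (1 : ZMod 2) else 0) -
          if π ∈ PD d then 1 else 0) = ∑ ρ ∈ PD e, ep π ρ := by
      refine Finset.sum_congr rfl fun ρ hρ => ?_
      rw [if_neg (fun h => Finset.disjoint_left.1 hdisj h hρ), if_pos hπd, hneg]
    rw [e1, e2, zero_add, if_pos hπd, mul_one, qr_mul hP, qr_im_sg hP]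
    have e3 : qr π e = sg (∑ u ∈ PD e, ep π u) := by
      rw [← qr_prod_ep hP (hnd π hπd), he.prod]
    rw [e3, ← sg_add, sgi]
    generalize (k : ZMod 2) * wx π = x
    generalize (∑ u ∈ PD e, ep π u) = y
    revert x y
    decide
  have c2 : ∀ π ∈ PD e, (qr π d = 1 ↔
      ∑ ρ ∈ PD d ∪ PD e, ep π ρ * ((if ρ ∈ PD d then (1 : ZMod 2) else 0) -
        if π ∈ PD d then 1 else 0) - (k : ZMod 2) * wx π * (if π ∈ PD d then 1 else 0) = 0) := by
    intro π hπe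
    have hP := ((mem_PD he.ne).1 hπe).1
    have hπd : π ∉ PD d := fun h => Finset.disjoint_left.1 hdisj h hπe
    rw [Finset.sum_union hdisj]
    have e1 : ∑ ρ ∈ PD e, ep π ρ * ((if ρ ∈ PD d then (1 : ZMod 2) else 0) -
          if π ∈ PD d then 1 else 0) = 0 := by
      refine Finset.sum_eq_zero fun ρ hρ => ?_
      rw [if_neg (fun h => Finset.disjoint_left.1 hdisj h hρ), if_neg hπd, sub_self, mul_zero]
    have e2 : ∑ ρ ∈ PD d, ep π ρ * ((if ρ ∈ PD d then (1 : ZMod 2) else 0) -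
          if π ∈ PD d then 1 else 0) = ∑ ρ ∈ PD d, ep π ρ := by
      refine Finset.sum_congr rfl fun ρ hρ => ?_
      rw [if_pos hρ, if_neg hπd, hneg']
    rw [e1, e2, add_zero, if_neg hπd, mul_zero, sub_zero]
    have e3 : qr π d = sg (∑ u ∈ PD d, ep π u) := by
      rw [← qr_prod_ep hP (hnd' π hπe), hd.prod]
    rw [e3, sgi]
  constructor
  · rintro ⟨h1, h2⟩ π hπ
    rcases Finset.mem_union.1 hπ with h | h
    · exact (c1 π h).1 (h1 π h)
    · exact (c2 π h).1 (h2 π h)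
  · intro h
    exact ⟨fun π hπ => (c1 π hπ).2 (h π (Finset.mem_union_left _ hπ)),
      fun π hπ => (c2 π hπ).2 (h π (Finset.mem_union_right _ hπ))⟩

/-- the conditions for all the primes and for the primary primes -/
lemma cond_iff' {d d' : ZI} (hd : PS d) (hnd : ∀ π, Prime π → π ∣ d → ¬ π ∣ d') {f : ZI}
    (hf : ∀ π, Prime π → (π ∣ f ↔ π ∣ d)) :
    (∀ π : ZI, Prime π → π ∣ f → ∃ x : ZI, π ∣ x ^ 2 - d') ↔ ∀ π ∈ PD d, qr π d' = 1 := by
  rw [← Pool.Agent.L7h3.QE.cond_iff hd hnd]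
  constructor
  · intro h π h1 h2
    exact h π h1 ((hf π h1).2 h2)
  · intro h π h1 h2
    exact h π h1 ((hf π h1).1 h2)

/-- the decomposition with the unit -/
lemma decomp_cond {D D0 d d' e : ZI} {k : ℕ} (hD : D = im1 ^ k * D0) (h0 : PS D0) (hd : prim d)
    (he : prim e) (h1 : D0 = d * e) (h2 : d' = im1 ^ k * e) :
    ((∀ π : ZI, Prime π → π ∣ d → ∃ x : ZI, π ∣ x ^ 2 - d') ∧
      (∀ π : ZI, Prime π → π ∣ d' → ∃ x : ZI, π ∣ x ^ 2 - d)) ↔
    SolK k (PD D0) (fun π => if π ∈ PD d then 1 else 0) := by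
  have pd : PS d := h0.of_dvd hd ⟨e, h1⟩
  have pe : PS e := h0.of_dvd he ⟨d, by rw [h1]; ring⟩
  have hco : IsCoprime d e := isCoprime_of_sqf (by rw [← h1]; exact h0.sqf)
  have hU : PD D0 = PD d ∪ PD e := by rw [h1]; exact PD_mul pd.ne pe.ne
  rw [hU, ← cond_sol pd pe hco k, h2]
  have n1 : ∀ π : ZI, Prime π → π ∣ d → ¬ π ∣ im1 ^ k * e := by
    intro π hπ h3 h4
    rw [not_dvd_im1 hπ] at h4
    exact hπ.not_isUnit (hco.isUnit_of_dvd' h3 h4)
  have n2 : ∀ π : ZI, Prime π → π ∣ e → ¬ π ∣ d := by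
    intro π hπ h3 h4
    exact hπ.not_isUnit (hco.isUnit_of_dvd' h4 h3)
  rw [cond_iff' pd n1 (fun _ _ => Iff.rfl), cond_iff' pe n2 (fun π hπ => not_dvd_im1 hπ k e)]

/-- the sum of the equations -/
lemma sum_wx {S : Finset ZI} (hS : ∀ π ∈ S, PP π) {k : ℕ} {v : ZI → ZMod 2} (h : SolK k S v) :
    (k : ZMod 2) * ∑ π ∈ S, wx π * v π = 0 := by
  have h1 : ∑ π ∈ S, (∑ ρ ∈ S, ep π ρ * (v ρ - v π) - (k : ZMod 2) * wx π * v π) = 0 :=
    Finset.sum_eq_zero h
  rw [Finset.sum_sub_distrib] at h1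
  have h2 : ∑ π ∈ S, ∑ ρ ∈ S, ep π ρ * (v ρ - v π) = 0 := by
    have e1 : ∑ π ∈ S, ∑ ρ ∈ S, ep π ρ * (v ρ - v π) =
        ∑ π ∈ S, ∑ ρ ∈ S, ep π ρ * v ρ - ∑ π ∈ S, ∑ ρ ∈ S, ep π ρ * v π := by
      rw [← Finset.sum_sub_distrib]
      refine Finset.sum_congr rfl fun π _ => ?_
      rw [← Finset.sum_sub_distrib]
      exact Finset.sum_congr rfl fun ρ _ => by ring
    have e2 : ∑ π ∈ S, ∑ ρ ∈ S, ep π ρ * v ρ = ∑ π ∈ S, ∑ ρ ∈ S, ep π ρ * v π := by
      rw [Finset.sum_comm]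
      refine Finset.sum_congr rfl fun π hπ => Finset.sum_congr rfl fun ρ hρ => ?_
      rw [ep_symm (hS ρ hρ) (hS π hπ)]
    rw [e1, e2, sub_self]
  rw [h2, zero_sub, neg_eq_zero] at h1
  rw [Finset.mul_sum, ← h1]
  exact Finset.sum_congr rfl fun π _ => by ring

lemma ind_eq {v : ZMod 2} (h : v ≠ 0) : v = 1 := by
  revert h
  revert v
  decide

/-- restriction of a solution to the indicator form -/
lemma sol_congr {k : ℕ} {S : Finset ZI} {v w : ZI → ZMod 2} (h : ∀ π ∈ S, v π = w π) :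
    SolK k S v ↔ SolK k S w := by
  unfold SolK
  refine forall₂_congr fun π hπ => ?_
  have : ∑ ρ ∈ S, ep π ρ * (v ρ - v π) = ∑ ρ ∈ S, ep π ρ * (w ρ - w π) :=
    Finset.sum_congr rfl fun ρ hρ => by rw [h ρ hρ, h π hπ]
  rw [this, h π hπ]

lemma zz_ne {D : ZI} (h : Squarefree D) : D ≠ 0 := h.ne_zero

/-- the splitting along a solution -/
lemma split_sol {D0 : ZI} (h0 : PS D0) (v : ZI → ZMod 2) :
    ∃ d e : ZI, PS d ∧ PS e ∧ D0 = d * e ∧ PD d = (PD D0).filter (fun π => v π ≠ 0) ∧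
      PD e = (PD D0).filter (fun π => ¬ v π ≠ 0) ∧
      (∀ π ∈ PD D0, v π = if π ∈ PD d then 1 else 0) := by
  have hP : ∀ π ∈ PD D0, PP π := fun π hπ => ((mem_PD h0.ne).1 hπ).1
  obtain ⟨a1, a2⟩ := PS_prod (S := (PD D0).filter (fun π => v π ≠ 0))
    (fun π hπ => hP π (Finset.mem_filter.1 hπ).1)
  obtain ⟨b1, b2⟩ := PS_prod (S := (PD D0).filter (fun π => ¬ v π ≠ 0))
    (fun π hπ => hP π (Finset.mem_filter.1 hπ).1)
  refine ⟨_, _, a1, b1, ?_, a2, b2, ?_⟩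
  · rw [Finset.prod_filter_mul_prod_filter_not, h0.prod]
  · intro π hπ
    rw [a2]
    by_cases h : v π = 0
    · rw [if_neg (by rw [Finset.mem_filter]; tauto), h]
    · rw [if_pos (by rw [Finset.mem_filter]; exact ⟨hπ, h⟩), ind_eq h]

lemma PS_eq_one_of {d : ZI} (h : PS d) (h1 : PD d = ∅) : d = 1 := by
  rw [← h.prod, h1, Finset.prod_empty]

lemma im1_pow_inv {k : ℕ} (hk : k < 4) : (im1 ^ k : ZI) * im1 ^ (4 - k) = 1 := by
  rw [← pow_add, Nat.add_sub_cancel' hk.le]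
  decide

/-- the second factor -/
lemma second {D0 d d' : ZI} {k : ℕ} (hk : k < 4) (h : im1 ^ k * D0 = d * d') :
    D0 = d * (im1 ^ (4 - k) * d') ∧ d' = im1 ^ k * (im1 ^ (4 - k) * d') := by
  have h1 := im1_pow_inv hk
  constructor
  · calc D0 = (im1 ^ k * im1 ^ (4 - k)) * D0 := by rw [h1, one_mul]
      _ = im1 ^ (4 - k) * (im1 ^ k * D0) := by ring
      _ = _ := by rw [h]; ring
  · rw [← mul_assoc, h1, one_mul]

lemma good_iff {D D0 : ZI} {k : ℕ} (hk : k < 4) (hD : D = im1 ^ k * D0) (h0 : PS D0) :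
    (∀ d d' : ZI, D = d * d' → (4 : ZI) ∣ d - 1 →
      (∀ π : ZI, Prime π → π ∣ d → ∃ x : ZI, π ∣ x ^ 2 - d') →
      (∀ π : ZI, Prime π → π ∣ d' → ∃ x : ZI, π ∣ x ^ 2 - d) → d = 1) ↔
    ∀ v : ZI → ZMod 2, SolK k (PD D0) v → ∑ π ∈ PD D0, wx π * v π = 0 → ∀ π ∈ PD D0, v π = 0 := by
  constructor
  · intro h v hv hw
    obtain ⟨d, e, p1, p2, h1, h2, h3, h4⟩ := split_sol h0 v
    have hsol : SolK k (PD D0) (fun π => if π ∈ PD d then 1 else 0) := (sol_congr h4).1 hv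
    have h5 := (decomp_cond hD h0 p1.prm p2.prm h1 rfl).2 hsol
    have hwd : wx d = 0 := by
      rw [← p1.prod, wx_prod fun π hπ => ((mem_PD p1.ne).1 hπ).1.prm, h2, Finset.sum_filter]
      refine Eq.trans (Finset.sum_congr rfl fun π hπ => ?_) hw
      by_cases h6 : v π = 0
      · rw [if_neg (by tauto), h6, mul_zero]
      · rw [if_pos h6, ind_eq h6, mul_one]
    have h7 := h d (im1 ^ k * e) (by rw [hD, h1]; ring) ((four_iff_wx p1.prm).2 hwd) h5.1 h5.2
    intro π hπ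
    rw [h4 π hπ, if_neg]
    rw [h7, PD_one]
    exact Finset.notMem_empty _
  · intro h d d' h1 h2 h3 h4
    have pd : prim d := prim_of_four h2
    rw [hD] at h1
    obtain ⟨h5, h6⟩ := second hk h1
    have pe : prim (im1 ^ (4 - k) * d') := prim_cancel pd (by rw [← h5]; exact h0.prm)
    have hPd : PS d := h0.of_dvd pd ⟨_, h5⟩
    have hsol := (decomp_cond hD h0 pd pe h5 h6).1 ⟨h3, h4⟩
    have hsub : PD d ⊆ PD D0 := PD_subset h0.ne ⟨_, h5⟩
    have hw : ∑ π ∈ PD D0, wx π * (if π ∈ PD d then 1 else 0) = 0 := by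
      have e1 : ∑ π ∈ PD D0, wx π * (if π ∈ PD d then (1 : ZMod 2) else 0) = ∑ π ∈ PD d, wx π := by
        rw [← Finset.sum_subset hsub]
        · exact Finset.sum_congr rfl fun π hπ => by rw [if_pos hπ, mul_one]
        · intro π _ hπ
          rw [if_neg hπ, mul_zero]
      rw [e1, ← wx_prod fun π hπ => ((mem_PD hPd.ne).1 hπ).1.prm, hPd.prod]
      exact (four_iff_wx pd).1 h2
    have h7 := h _ hsol hw
    refine PS_eq_one_of hPd (Finset.eq_empty_of_forall_notMem fun π hπ => ?_)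
    have h8 := h7 π (hsub hπ)
    rw [if_pos hπ] at h8
    exact one_ne_zero h8

lemma clX_of {D D0 : ZI} {k : ℕ} (hk : k < 4) (hD : D = im1 ^ k * D0) (h0 : PS D0)
    (h : k % 2 = 1 ∨ D0.norm % 8 = 5) : ClX D := by
  have hsq : Squarefree D := by
    rw [hD]
    have := (im1_isUnit k)
    exact (squarefree_mul_iff.2 ⟨this.isRelPrime_left, this.squarefree, h0.sqf⟩)
  have hn : D.norm % 2 = 1 := by
    rw [hD, Zsqrtd.norm_mul, im1_pow_norm, one_mul]
    exact prim_norm_odd h0.prm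
  have hc : ∀ z : ZI, (4 : ZI) ∣ z ↔ z.re % 4 = 0 ∧ z.im % 4 = 0 := four_dvd_iff
  obtain ⟨p1, p2⟩ := h0.prm
  have h8 := prim_norm8 h0.prm
  have key : ¬ (D.re % 4 = 1 ∧ D.im % 4 = 0) ∧ ¬ (D.re % 4 = 3 ∧ D.im % 4 = 0) := by
    have hk4 : k = 0 ∨ k = 1 ∨ k = 2 ∨ k = 3 := by omega
    rcases hk4 with rfl | rfl | rfl | rfl
    · have e : D = D0 := by rw [hD, pow_zero, one_mul]
      rw [e]
      omega
    · have e1 : D.re = - D0.im := by rw [hD, pow_one, re_mul']; simp [im1]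
      have e2 : D.im = D0.re := by rw [hD, pow_one, im_mul']; simp [im1]
      rw [e1, e2]
      omega
    · have e1 : D.re = - D0.re := by rw [hD, im1_sq]; simp
      have e2 : D.im = - D0.im := by rw [hD, im1_sq]; simp
      rw [e1, e2]
      omega
    · have e3 : (im1 ^ 3 : ZI) = ⟨0, -1⟩ := by decide
      have e1 : D.re = D0.im := by rw [hD, e3, re_mul']; simp
      have e2 : D.im = -D0.re := by rw [hD, e3, im_mul']; simp
      rw [e1, e2]
      omega
  refine ⟨hsq, hn, ?_, ?_⟩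
  · rw [hc]
    have e1 : (D - 1).re = D.re - 1 := by simp
    have e2 : (D - 1).im = D.im := by simp
    rw [e1, e2]
    omega
  · rw [hc]
    have e1 : (D + 1).re = D.re + 1 := by simp
    have e2 : (D + 1).im = D.im := by simp
    rw [e1, e2]
    omega

lemma clX_to {D : ZI} (h : ClX D) :
    ∃ k < 4, ∃ D0 : ZI, D = im1 ^ k * D0 ∧ PS D0 ∧ (k % 2 = 1 ∨ D0.norm % 8 = 5) := by
  obtain ⟨hsq, hn, h1, h2⟩ := h
  obtain ⟨u, w, huw, hp⟩ := exists_prim D hn
  have hwn : w.norm = 1 := by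
    have : IsUnit w := IsUnit.of_mul_eq_one u (by rw [mul_comm]; exact huw)
    obtain ⟨e, rfl⟩ := this
    exact unit_norm e
  have hu : IsUnit u := IsUnit.of_mul_eq_one w huw
  have hD : D = w * (u * D) := by
    rw [← mul_assoc, mul_comm w u, huw, one_mul]
  have hps : PS (u * D) := by
    refine ⟨hp, ?_⟩
    exact (squarefree_mul_iff.2 ⟨hu.isRelPrime_left, hu.squarefree, hsq⟩)
  have h8 := prim_norm8 hp
  have fin : ∀ k < 4, w = im1 ^ k → ∃ k < 4, ∃ D0 : ZI, D = im1 ^ k * D0 ∧ PS D0 ∧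
      (k % 2 = 1 ∨ D0.norm % 8 = 5) := by
    intro k hk hw
    refine ⟨k, hk, u * D, by rw [← hw]; exact hD, hps, ?_⟩
    by_contra hcon
    push Not at hcon
    obtain ⟨c1, c2⟩ := hcon
    obtain ⟨q1, q2⟩ := hp
    have h9 : (u * D).im % 4 = 0 := by omega
    have h10 : (u * D).re % 4 = 1 := by omega
    have hk2 : k = 0 ∨ k = 2 := by omega
    rcases hk2 with rfl | rfl
    · apply h1
      rw [four_dvd_iff]
      rw [hw, pow_zero, one_mul] at hD
      have e1 : (D - 1).re = D.re - 1 := by simp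
      have e2 : (D - 1).im = D.im := by simp
      rw [← hD] at h9 h10
      rw [e1, e2]
      omega
    · apply h2
      rw [four_dvd_iff]
      rw [hw, im1_sq] at hD
      have e1 : (D + 1).re = D.re + 1 := by simp
      have e2 : (D + 1).im = D.im := by simp
      have e3 : D.re = -(u * D).re := by
        have := congrArg Zsqrtd.re hD
        simpa using this
      have e4 : D.im = -(u * D).im := by
        have := congrArg Zsqrtd.im hD
        simpa using this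
      rw [e1, e2, e3, e4]
      omega
  rcases unit_cases hwn with h | h | h | h
  · exact fin 0 (by norm_num) (by rw [h, pow_zero])
  · exact fin 1 (by norm_num) (by rw [h, pow_one])
  · exact fin 2 (by norm_num) h
  · exact fin 3 (by norm_num) h

lemma solK_odd {k : ℕ} (hk : k % 2 = 1) (S : Finset ZI) (v : ZI → ZMod 2) : SolK k S v ↔
    ∀ π ∈ S, ∑ ρ ∈ S, ep π ρ * (v ρ - v π) - wx π * v π = 0 := by
  have : (k : ZMod 2) = 1 := (ZMod.natCast_eq_one_iff_odd).2 (Nat.odd_iff.2 hk)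
  unfold SolK
  rw [this]
  simp only [one_mul]

lemma solK_even {k : ℕ} (hk : k % 2 = 0) (S : Finset ZI) (v : ZI → ZMod 2) : SolK k S v ↔
    Sol S v := by
  have : (k : ZMod 2) = 0 := (ZMod.natCast_eq_zero_iff_even).2 (Nat.even_iff.2 hk)
  unfold SolK Sol
  rw [this]
  simp only [zero_mul, sub_zero]

lemma gdX_iff {D0 : ZI} (h0 : PS D0) {k : ℕ} (hk : k % 2 = 1) :
    (∀ v : ZI → ZMod 2, SolK k (PD D0) v → ∑ π ∈ PD D0, wx π * v π = 0 → ∀ π ∈ PD D0, v π = 0) ↔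
      GdX (PD D0) := by
  have hP : ∀ π ∈ PD D0, PP π := fun π hπ => ((mem_PD h0.ne).1 hπ).1
  constructor
  · intro h v hv
    have h1 := (solK_odd hk _ _).2 hv
    refine h v h1 ?_
    have h2 := sum_wx hP h1
    have : (k : ZMod 2) = 1 := (ZMod.natCast_eq_one_iff_odd).2 (Nat.odd_iff.2 hk)
    rwa [this, one_mul] at h2
  · intro h v hv _
    exact h v ((solK_odd hk _ _).1 hv)

lemma gd_iff {D0 : ZI} (h0 : PS D0) {k : ℕ} (hk : k % 2 = 0) (h5 : D0.norm % 8 = 5) :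
    (∀ v : ZI → ZMod 2, SolK k (PD D0) v → ∑ π ∈ PD D0, wx π * v π = 0 → ∀ π ∈ PD D0, v π = 0) ↔
      Gd (PD D0) := by
  have hP : ∀ π ∈ PD D0, PP π := fun π hπ => ((mem_PD h0.ne).1 hπ).1
  have hw1 : ∑ π ∈ PD D0, wx π = 1 := by
    rw [← wx_prod fun π hπ => (hP π hπ).prm, h0.prod]
    unfold wx
    rw [if_pos h5]
  constructor
  · intro h v hv π hπ ρ hρ
    by_cases hw : ∑ π ∈ PD D0, wx π * v π = 0
    · have h1 := h v ((solK_even hk _ _).2 hv) hw
      rw [h1 π hπ, h1 ρ hρ]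
    · have h2 : Sol (PD D0) (fun π => 1 + v π) := by
        intro π hπ
        have h3 := hv π hπ
        rw [← h3]
        exact Finset.sum_congr rfl fun ρ _ => by ring
      have h3 : ∑ π ∈ PD D0, wx π * (1 + v π) = 0 := by
        have : ∑ π ∈ PD D0, wx π * (1 + v π) = ∑ π ∈ PD D0, wx π + ∑ π ∈ PD D0, wx π * v π := by
          rw [← Finset.sum_add_distrib]
          exact Finset.sum_congr rfl fun ρ _ => by ring
        rw [this, hw1, ind_eq hw]
        decide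
      have h4 := h _ ((solK_even hk _ _).2 h2) h3
      have h5 := h4 π hπ
      have h6 := h4 ρ hρ
      have h7 : 1 + v π = 1 + v ρ := by rw [h5, h6]
      exact add_left_cancel h7
  · intro h v hv hw π hπ
    have h1 := h v ((solK_even hk _ _).1 hv)
    have h2 : ∑ ρ ∈ PD D0, wx ρ * v ρ = v π := by
      have : ∑ ρ ∈ PD D0, wx ρ * v ρ = ∑ ρ ∈ PD D0, wx ρ * v π :=
        Finset.sum_congr rfl fun ρ hρ => by rw [h1 ρ hρ π hπ]
      rw [this, ← Finset.sum_mul, hw1, one_mul]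
    rw [← h2, hw]

/-- **S_CRX** -/
theorem t_CRX : S_CRX := by
  intro D
  constructor
  · constructor
    · exact clX_to
    · rintro ⟨k, hk, D0, hD, h0, h⟩
      exact clX_of hk hD h0 h
  · constructor
    · rintro ⟨hc, hg⟩
      obtain ⟨k, hk, D0, hD, h0, h⟩ := clX_to hc
      refine ⟨k, hk, D0, hD, h0, ?_⟩
      have h1 := (good_iff hk hD h0).1 hg
      by_cases hk2 : k % 2 = 1
      · exact Or.inl ⟨hk2, (gdX_iff h0 hk2).1 h1⟩
      · have h5 := h.resolve_left hk2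
        exact Or.inr ⟨by omega, h5, (gd_iff h0 (by omega) h5).1 h1⟩
    · rintro ⟨k, hk, D0, hD, h0, ⟨h1, h2⟩ | ⟨h1, h5, h2⟩⟩
      · exact ⟨clX_of hk hD h0 (Or.inl h1), (good_iff hk hD h0).2 ((gdX_iff h0 h1).2 h2)⟩
      · exact ⟨clX_of hk hD h0 (Or.inr h5), (good_iff hk hD h0).2 ((gd_iff h0 h1 h5).2 h2)⟩

end Pool.Agent.L7h97.QX
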