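import Pool.Agent.L7h3.QX.Stm2
import Pool.Agent.L7h3.QD.Ful

/-!
# Project QX (helper3), FUL (helper97): the complete `L`-series
-/

set_option autoImplicit false
set_option linter.unusedSectionVars false

open NumberField IsDedekindDomain

namespace Pool.Agent.L7h97.QX

open scoped Classical
open Pool.Agent.L7h3.QX
open Pool.Agent.L7h3.QD
open Pool.Agent.L7h3.MQ
open Pool.Agent.L7h3.MR
open Pool.Agent.W189.NF
open Pool.Agent.H921R2.TatePole (nm two_le_nm nm_summable below)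
open Pool.Agent.Y696 (HBd LSeries_hasProd' coeff_bd)
open Pool.Agent.Y715.Z (q4)

/-- **S_FUL**, from the local data above two -/
theorem t_FUL (hHS2 : S_HS2) : S_FUL := by
  intro K _ _ δ hδ h
  have hB : ∀ v : HeightOneSpectrum (𝓞 K), HB (aV (q4 δ) v) (eV (q4 δ) v) (nm v) := by
    intro v
    by_cases hv : (2 : 𝓞 K) ∈ v.asIdeal
    · exact hHS2 K δ hδ v hv
    · exact Or.inl (hbd_gen hv hδ)
  have hfin : {v : HeightOneSpectrum (𝓞 K) | (2 : 𝓞 K) ∈ v.asIdeal}.Finite := by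
    have h2 : Ideal.span {(2 : 𝓞 K)} ≠ 0 := by
      rw [Ne, Ideal.zero_eq_bot, Ideal.span_singleton_eq_bot]
      exact two_ne_zero
    refine (Ideal.finite_factors h2).subset fun v hv => ?_
    show v.asIdeal ∣ Ideal.span {(2 : 𝓞 K)}
    rw [Ideal.dvd_span_singleton]
    exact hv
  set S := hfin.toFinset with hS
  obtain ⟨L, a, b, c⟩ := h
  refine ⟨fun s => L s * ∏ v ∈ S, Fac (q4 δ) s v, ?_, ?_, ?_⟩
  · refine a.differentiableOn.mul ?_
    exact DifferentiableOn.fun_finsetProd fun v _ => Fac_diff (hB v)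
  · refine mul_ne_zero b (Finset.prod_ne_zero_iff.2 fun v _ => Fac_one_ne (hB v) ?_)
    norm_num
  · intro s hs
    refine ⟨LSeries_sumB hB hs, ?_⟩
    have h1 := c s hs
    have h2 : HasProd (fun v : HeightOneSpectrum (𝓞 K) => if v ∈ S then Fac (q4 δ) s v else 1)
        (∏ v ∈ S, if v ∈ S then Fac (q4 δ) s v else 1) :=
      hasProd_prod_of_ne_finset_one fun v hv => if_neg hv
    have h3 : ∏ v ∈ S, (if v ∈ S then Fac (q4 δ) s v else 1) = ∏ v ∈ S, Fac (q4 δ) s v :=
      Finset.prod_congr rfl fun v hv => if_pos hv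
    rw [h3] at h2
    refine (h1.mul h2).unique ((LSeries_hasProdB hB hs).congr_fun fun v => ?_)
    have hm : v ∈ S ↔ (2 : 𝓞 K) ∈ v.asIdeal := by rw [hS, Set.Finite.mem_toFinset]; rfl
    by_cases hv : (2 : 𝓞 K) ∈ v.asIdeal
    · rw [if_pos hv, if_pos (hm.2 hv), one_mul]
    · rw [if_neg hv, if_neg (fun h => hv (hm.1 h)), mul_one]

end Pool.Agent.L7h97.QX
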