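import Pool.Agent.L7h3.QX.Stm
import Pool.Agent.L7h3.QD.Mgp
import Pool.Agent.Y699.Qf

/-!
# Project QX (helper3), MGX (helper97): the main congruence with an additional vertex

Port of `Pool/Agent/L7h3/QD/Mgp.lean`.
-/

set_option autoImplicit false
set_option linter.unusedSectionVars false
set_option linter.unusedSimpArgs false
set_option linter.unusedVariables false

open Filter Complex
open scoped Topology PeriodPair
open H667R3 hiding sq
open Pool.Agent.TH936.CM
open Pool.Agent.W192.HK hiding Od

namespace Pool.Agent.L7h97.QX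

open Pool.Agent.Y699
open Pool.Agent.L7h3.QD (MG orbit_sumc even_sumc zq_gc)
open Pool.Agent.L7h3.QX
open H385 (ZI RQ im1 nrm)
open Pool.Agent.H304R3.HK (tc HC LH chi_le)
open Pool.Agent.W164.RC (tc_mul tc_star two2 prim_iff_dvd unit_cases)
open Pool.Agent.H304R2.EC.A1 (prim prim_mul prim_cancel prim_one prim_norm_odd prim_star eq_one_of_prim
  norm_def' re_mul' im_mul' eq_of_dvd prim_ne_zero)

/-- reindexing, both parities -/
theorem sum_reindexx {κ : Type*} [Fintype κ] [DecidableEq κ] {w : κ → ZMod 2} {V : Finset κ} {r : κ}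
    (hr : r ∈ V) (hwr : w r = 1) (c0 : ZMod 2)
    (T : Finset κ → ZMod 2) (f : Finset κ → Finset κ) (O₀ : Finset κ)
    (h1 : ∀ S ⊆ V.erase r, f S ⊆ V) (h2 : ∀ S ⊆ V.erase r, ∑ j ∈ f S, w j = c0)
    (h3 : ∀ S ⊆ V.erase r, ∀ j ∈ V.erase r, (j ∈ f S ↔ ¬ (j ∈ O₀ ↔ j ∈ S))) :
    ∑ S ∈ (V.erase r).powerset, T (f S) =
      ∑ O ∈ V.powerset.filter (fun O => ∑ j ∈ O, w j = c0), T O := by
  have hne : ∀ a : ZMod 2, 1 + a = a → False := by decide
  refine Finset.sum_bij (fun S _ => f S) ?_ ?_ ?_ (fun _ _ => rfl)
  · intro S hS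
    rw [Finset.mem_powerset] at hS
    rw [Finset.mem_filter, Finset.mem_powerset]
    exact ⟨h1 S hS, h2 S hS⟩
  · intro S hS S' hS' heq
    rw [Finset.mem_powerset] at hS hS'
    ext j
    constructor
    · intro hj
      have a1 := h3 S hS j (hS hj)
      have a2 := h3 S' hS' j (hS hj)
      rw [heq] at a1
      tauto
    · intro hj
      have a1 := h3 S hS j (hS' hj)
      have a2 := h3 S' hS' j (hS' hj)
      rw [heq] at a1
      tauto
  · intro O hO
    rw [Finset.mem_filter, Finset.mem_powerset] at hO
    refine ⟨(V.erase r).filter (fun j => ¬ (j ∈ O₀ ↔ j ∈ O)), ?_, ?_⟩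
    · rw [Finset.mem_powerset]; exact Finset.filter_subset _ _
    · set S := (V.erase r).filter (fun j => ¬ (j ∈ O₀ ↔ j ∈ O)) with hSdef
      have hS : S ⊆ V.erase r := Finset.filter_subset _ _
      have b1 : ∀ j ∈ V.erase r, (j ∈ f S ↔ j ∈ O) := by
        intro j hj
        rw [h3 S hS j hj, hSdef, Finset.mem_filter]
        tauto
      have b2 : (f S).erase r = O.erase r := by
        ext j
        rw [Finset.mem_erase, Finset.mem_erase]
        constructor
        · rintro ⟨c1, c2⟩
          exact ⟨c1, (b1 j (Finset.mem_erase.2 ⟨c1, h1 S hS c2⟩)).1 c2⟩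
        · rintro ⟨c1, c2⟩
          exact ⟨c1, (b1 j (Finset.mem_erase.2 ⟨c1, hO.1 c2⟩)).2 c2⟩
      have b3 : r ∈ f S ↔ r ∈ O := by
        have c1 := h2 S hS
        have c2 := hO.2
        constructor
        · intro h
          by_contra h'
          rw [← Finset.add_sum_erase _ _ h, b2, Finset.erase_eq_of_notMem h', c2, hwr] at c1
          exact hne _ c1
        · intro h
          by_contra h'
          rw [← Finset.add_sum_erase _ _ h, ← b2, Finset.erase_eq_of_notMem h', c1, hwr] at c2
          exact hne _ c2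
      ext j
      by_cases hj : j = r
      · rw [hj]; exact b3
      · constructor
        · intro c
          exact (b1 j (Finset.mem_erase.2 ⟨hj, h1 S hS c⟩)).1 c
        · intro c
          exact (b1 j (Finset.mem_erase.2 ⟨hj, hO.1 c⟩)).2 c

/-- the determinant for one vertex -/
lemma det_single {κ : Type*} [Fintype κ] [DecidableEq κ] (x : κ → ZMod 2) (e : κ → κ → ZMod 2)
    (he : ∀ v, e v v = 0) {a : κ} (ha : x a = 1) {O : Finset κ} (hO : O ⊆ {a}) :
    (Ff.MM x e {a} O).det = 1 := by
  have h1 : Ff.MM x e {a} O = 1 := by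
    ext u v
    unfold Ff.MM
    by_cases hv : v ∈ ({a} : Finset κ)
    · rw [Finset.mem_singleton] at hv
      subst hv
      rw [if_pos (Finset.mem_singleton_self _)]
      by_cases huv : u = v
      · subst huv
        rw [if_pos rfl, Matrix.one_apply_eq]
        unfold Ff.dg
        rw [ha]
        have : ∑ i ∈ O, e i u = 0 := by
          refine Finset.sum_eq_zero fun i hi => ?_
          have := Finset.mem_singleton.1 (hO hi)
          rw [this, he]
        rw [this, add_zero]
      · rw [if_neg huv, Matrix.one_apply_ne huv, if_neg]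
        intro hu
        exact huv (Finset.mem_singleton.1 (hO hu))
    · rw [if_neg hv]
      by_cases huv : u = v
      · rw [if_pos huv, huv, Matrix.one_apply_eq]
      · rw [if_neg huv, Matrix.one_apply_ne huv]
  rw [h1, Matrix.det_one]

variable {L : PeriodPair} {Ω : ℂ} {ι : Type} [Fintype ι] [DecidableEq ι] {pr : ι → ZI}

/-- the hypotheses on the function -/
structure GF (L : PeriodPair) (w : ℕ) (g : ℂ → ℂ) : Prop where
  hw : w < 4
  per : ∀ x y : ℂ, x - y ∈ L.lattice → g x = g y
  im : ∀ x : ℂ, g (I * x) = (-I) ^ w * g x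

lemma tc_powx (a : ZI) (n : ℕ) : tc (a ^ n) = tc a ^ n := by
  induction n with
  | zero => rw [pow_zero, pow_zero, tc_one]
  | succ n ih => rw [pow_succ, pow_succ, tc_mul, ih]

lemma GF.inv {w : ℕ} {g : ℂ → ℂ} (G : GF L w g) (hp : PF pr) {V : Finset ι} {e : ι → ℕ}
    (hW : Wt pr V e % 4 = w) (a : ZI) (x : ℂ) :
    tc (c4 pr V e (im1 * a)) * g (I * x) = tc (c4 pr V e a) * g x := by
  rw [G.im, c4_mul hp, c4_unit hp V e im1_norm]
  rw [unit_pow_mod im1_norm (n := w) (by rw [hW, Nat.mod_eq_of_lt G.hw]), tc_mul, tc_powx, tc_im1]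
  have h1 : (I : ℂ) ^ w * (-I) ^ w = 1 := by
    rw [← mul_pow]
    have : I * -I = (1 : ℂ) := by rw [mul_neg, I_mul_I, neg_neg]
    rw [this, one_pow]
  linear_combination (tc (c4 pr V e a) * g x) * h1

section val

variable {Γ : Type} [LinearOrderedCommGroupWithZero Γ] {v : Valuation ℂ Γ} (h2 : v 2 < 1)
  (h : GLat L Ω)

/-- the relation before evaluation -/
lemma rel_exactx (hp : PF pr) {w : ℕ} {g : ℂ → ℂ} (G : GF L w g) {c : ZI} (hc : ∀ i, ¬ pr i ∣ c)
    {V : Finset ι} {r : ι} (hr : r ∈ V) (hw : wq (pr r) % 2 = 1)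
    {e : ι → ℕ} (he : ∀ i ∈ V.erase r, 1 ≤ e i) (hW : Wt pr V e % 4 = w)
    [Fintype (RQ (DD pr V))] (h : GLat L Ω) :
    ∑ S ∈ (V.erase r).powerset, (-1) ^ S.card * MG g c Ω pr V (es pr r e S) =
      ∑ q : RQ (DD pr V), (open Classical in (if q4 (pr r) (c * q.out) = 1 then
        (∏ i ∈ V.erase r, df pr e i (c * q.out)) * g (zq Ω (DD pr V) q.out) else 0)) := by
  classical
  have hD0 := DD_ne hp V
  -- each term
  have h1 : ∀ S ∈ (V.erase r).powerset, MG g c Ω pr V (es pr r e S) =
      ∑ q : RQ (DD pr V), (if q4 (pr r) (c * q.out) = 1 then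
        tc (c4 pr V (es pr r e S) (c * q.out)) * g (zq Ω (DD pr V) q.out) else 0) := by
    intro S hS
    rw [Finset.mem_powerset] at hS
    have hWS : Wt pr V (es pr r e S) % 4 = w := by rw [es_Wt hr hw he hS, hW]
    unfold MG
    refine orbit_sumc (G := fun a => tc (c4 pr V (es pr r e S) (c * a)) * g (zq Ω (DD pr V) a))
      (dvd_DD hr) (hp.pp r) (hc r) hw ?_ ?_ ?_
    · intro a b hab
      rw [c4_per hp V _ (a := c * a) (b := c * b) (by rw [← mul_sub]; exact hab.mul_left _),
        G.per _ _ (zq_sub h.lat hD0 hab)]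
    · intro a
      have e1 : c * (im1 * a) = im1 * (c * a) := by ring
      rw [e1, zq_mul, tc_im1, G.inv hp hWS]
    · intro a ha
      rw [c4_zero _ hr (ha.mul_left _), tc_zero, zero_mul]
  rw [Finset.sum_congr rfl fun S hS => by rw [h1 S hS, Finset.mul_sum], Finset.sum_comm]
  refine Finset.sum_congr rfl fun q _ => ?_
  by_cases hq : q4 (pr r) (c * q.out) = 1
  · simp only [if_pos hq]
    have hnd : ¬ pr r ∣ c * q.out := by
      intro hd
      rw [q4_zero hd] at hq
      exact absurd hq (by decide)
    have h3 : ∏ i ∈ V.erase r, df pr e i (c * q.out) = ∑ S ∈ (V.erase r).powerset,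
        (-1) ^ S.card * tc (c4 pr V (es pr r e S) (c * q.out)) := by
      have h4 : ∀ i ∈ V.erase r, df pr e i (c * q.out) =
          -tc (fe (pr i) (e i - 1) (c * q.out)) + tc (fe (pr i) (e i) (c * q.out)) := by
        intro i _
        unfold df; ring
      rw [Finset.prod_congr rfl h4, Finset.prod_add]
      refine Finset.sum_congr rfl fun S hS => ?_
      rw [Finset.mem_powerset] at hS
      rw [Finset.prod_neg, mul_assoc]
      congr 1
      unfold c4
      rw [tc_prod, ← Finset.mul_prod_erase V _ hr]
      have e1 : tc (fe (pr r) (es pr r e S r) (c * q.out)) = 1 := by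
        unfold fe
        rw [if_neg hnd, hq, one_pow, tc_one]
      rw [e1, one_mul, ← Finset.prod_sdiff hS, mul_comm]
      congr 1
      · refine Finset.prod_congr rfl fun i hi => ?_
        rw [Finset.mem_sdiff] at hi
        unfold es
        rw [if_neg (Finset.mem_erase.1 hi.1).1, if_neg hi.2]
      · refine Finset.prod_congr rfl fun i hi => ?_
        unfold es
        rw [if_neg (Finset.mem_erase.1 (hS hi)).1, if_pos hi]
    rw [h3, Finset.sum_mul]
    exact Finset.sum_congr rfl fun S _ => by ring
  · simp only [if_neg hq, mul_zero, Finset.sum_const_zero]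

include h2 h in
/-- the relation -/
lemma rel_cgx (hp : PF pr) {w : ℕ} {g : ℂ → ℂ} (G : GF L w g) (hg : ∀ x : ℂ, OT L x → Cg v (g x) 1)
    {c : ZI} (hcc : ∀ i, ¬ pr i ∣ c) {V : Finset ι} {r : ι} (hr : r ∈ V) (hw : wq (pr r) % 2 = 1)
    {e : ι → ℕ} (he : ∀ i ∈ V.erase r, 1 ≤ e i) (hW : Wt pr V e % 4 = w) (hc : 2 ≤ V.card)
    [Fintype (RQ (DD pr V))] :
    v (∑ S ∈ (V.erase r).powerset, (-1) ^ S.card * (MG g c Ω pr V (es pr r e S) /
      (1 + I) ^ (V.card - 1))) < 1 := by
  classical
  have h1I : (1 + I : ℂ) ≠ 0 := one_I_ne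
  have e1 : ∑ S ∈ (V.erase r).powerset, (-1) ^ S.card * (MG g c Ω pr V (es pr r e S) /
      (1 + I) ^ (V.card - 1)) = ∑ q : RQ (DD pr V), (if q4 (pr r) (c * q.out) = 1 then
        (∏ i ∈ V.erase r, (df pr e i (c * q.out) / (1 + I))) * g (zq Ω (DD pr V) q.out) else 0) := by
    have h1 := rel_exactx hp G hcc hr hw he hW h
    have e2 : ∑ S ∈ (V.erase r).powerset, (-1) ^ S.card * (MG g c Ω pr V (es pr r e S) /
        (1 + I) ^ (V.card - 1)) = (∑ S ∈ (V.erase r).powerset, (-1) ^ S.card *
          MG g c Ω pr V (es pr r e S)) / (1 + I) ^ (V.card - 1) := by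
      rw [Finset.sum_div]
      exact Finset.sum_congr rfl fun S _ => by ring
    rw [e2, h1, Finset.sum_div]
    refine Finset.sum_congr rfl fun q _ => ?_
    split_ifs
    · rw [Finset.prod_div_distrib, Finset.prod_const, Finset.card_erase_of_mem hr]
      ring
    · rw [zero_div]
  rw [e1]
  have c1 : Cg v (∑ q : RQ (DD pr V), (if q4 (pr r) (c * q.out) = 1 then
        (∏ i ∈ V.erase r, (df pr e i (c * q.out) / (1 + I))) * g (zq Ω (DD pr V) q.out) else 0))
      (∑ q : RQ (DD pr V), (if q4 (pr r) (c * q.out) = 1 then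
        (∏ i ∈ V.erase r, uu (dd pr i (c * q.out))) else 0)) := by
    refine Cg.sum _ fun q _ => ?_
    split_ifs with hq
    · have c2 := (Cg.prod (V.erase r) (f := fun i => df pr e i (c * q.out) / (1 + I))
        (g := fun i => uu (dd pr i (c * q.out))) (v := v)
        (fun i hi => df_cg h2 hp (he i hi) (c * q.out))).mul (zq_gc h hg hp hr hq)
      rwa [mul_one] at c2
    · exact Cg.refl (by rw [map_zero]; exact zero_le)
  have c3 := even_sumc (v := v) h2 hp (k := c) hr hc
  have c4 : Cg v (∑ q : RQ (DD pr V), (if q4 (pr r) (c * q.out) = 1 then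
        (∏ i ∈ V.erase r, uu (dd pr i (c * q.out))) else 0)) 0 := Cg.zero (lt_of_le_of_lt c3 h2)
  exact (c1.trans c4).lt

lemma Od_wtx (hp : PF pr) (V : Finset ι) (e : ι → ℕ) :
    ∑ j ∈ Od V e, wt pr j = ((Wt pr V e : ℕ) : ZMod 2) := by
  unfold Od Wt
  rw [Finset.sum_filter, Nat.cast_sum]
  refine Finset.sum_congr rfl fun i _ => ?_
  rw [Nat.cast_mul, wt_wq hp]
  split_ifs with h5
  · have h6 : ((e i : ℕ) : ZMod 2) = ((1 : ℕ) : ZMod 2) := by
      rw [ZMod.natCast_eq_natCast_iff]
      exact h5
    rw [h6]; norm_num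
  · have h6 : ((e i : ℕ) : ZMod 2) = ((0 : ℕ) : ZMod 2) := by
      rw [ZMod.natCast_eq_natCast_iff]
      show e i % 2 = 0 % 2
      omega
    rw [h6]; norm_num

include h2 h in
/-- the case of one prime -/
lemma MG_singlex (hp : PF pr) {w : ℕ} {g : ℂ → ℂ} (G : GF L w g)
    (hg : ∀ x : ℂ, OT L x → Cg v (g x) 1) {c : ZI} (hcc : ∀ i, ¬ pr i ∣ c)
    {r' : ι} {e : ι → ℕ} (hw : wq (pr r') % 2 = 1) (hW : Wt pr {r'} e % 4 = w)
    [Fintype (RQ (DD pr {r'}))] : Cg v (MG g c Ω pr {r'} e) 1 := by
  classical
  have hr : r' ∈ ({r'} : Finset ι) := Finset.mem_singleton_self r'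
  have her : ({r'} : Finset ι).erase r' = ∅ := by simp
  have h1 := rel_exactx hp G hcc hr hw (e := e) (by rw [her]; simp) hW h
  rw [her, Finset.powerset_empty, Finset.sum_singleton, es_empty, Finset.card_empty, pow_zero,
    one_mul] at h1
  simp only [Finset.prod_empty, one_mul] at h1
  rw [h1]
  have c1 : Cg v (∑ q : RQ (DD pr {r'}), (if q4 (pr r') (c * q.out) = 1 then
      g (zq Ω (DD pr {r'}) q.out) else 0))
      (∑ q : RQ (DD pr {r'}), (if q4 (pr r') (c * q.out) = 1 then 1 else 0)) := by
    refine Cg.sum _ fun q _ => ?_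
    split_ifs with hq
    · exact zq_gc h hg hp hr hq
    · exact Cg.refl (by rw [map_zero]; exact zero_le)
  have hDr : DD pr {r'} = pr r' := by unfold DD; exact Finset.prod_singleton _ _
  have h3 := orbit_sumc (D := DD pr {r'}) (dvd_DD hr) (hp.pp r') (hcc r') hw
    (G := fun a => if pr r' ∣ a then 0 else 1)
    (by
      intro a b hab
      have h4 : pr r' ∣ a - b := (dvd_DD hr).trans hab
      have h5 : pr r' ∣ a ↔ pr r' ∣ b := by
        constructor
        · intro h'; have := dvd_sub h' h4; rwa [sub_sub_cancel] at this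
        · intro h'; have := dvd_add h4 h'; rwa [sub_add_cancel] at this
      simp only [h5])
    (by
      intro a
      have h5 : pr r' ∣ im1 * a ↔ pr r' ∣ a := qr_unit_mul (hp.pp r') im1_norm a
      simp only [h5])
    (by
      intro a ha
      simp only [if_pos ha])
  have h4 : ∑ q : RQ (DD pr {r'}), (if q4 (pr r') (c * q.out) = 1 then
      (if pr r' ∣ q.out then (0 : ℂ) else 1) else 0) =
      ∑ q : RQ (DD pr {r'}), (if q4 (pr r') (c * q.out) = 1 then 1 else 0) := by
    refine Finset.sum_congr rfl fun q _ => ?_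
    by_cases hq : q4 (pr r') (c * q.out) = 1
    · rw [if_pos hq, if_pos hq, if_neg]
      intro hd
      rw [q4_zero (hd.mul_left c)] at hq
      exact absurd hq (by decide)
    · rw [if_neg hq, if_neg hq]
  have h5 : ∑ q : RQ (DD pr {r'}), (if pr r' ∣ q.out then (0 : ℂ) else 1) =
      (Fintype.card (RQ (DD pr {r'})) : ℂ) - 1 := by
    have h6 : ∀ q : RQ (DD pr {r'}), (if pr r' ∣ q.out then (0 : ℂ) else 1) =
        1 - (if q = 0 then 1 else 0) := by
      intro q
      have h7 : pr r' ∣ q.out ↔ q = 0 := by
        rw [← Ideal.mem_span_singleton, ← hDr, ← Ideal.Quotient.eq_zero_iff_mem,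
          Ideal.Quotient.mk_out]
      by_cases hq : q = 0
      · rw [if_pos (h7.2 hq), if_pos hq, sub_self]
      · rw [if_neg (fun h' => hq (h7.1 h')), if_neg hq, sub_zero]
    rw [Finset.sum_congr rfl fun q _ => h6 q, Finset.sum_sub_distrib, Finset.sum_ite_eq']
    simp
  have hcard : Fintype.card (RQ (DD pr {r'})) = nrm (pr r') := by
    rw [← Nat.card_eq_fintype_card, H385.H10.card_RQ, hDr]
  have hm := (hp.pp r').nrm_mod
  have h6 : (1 / 4 : ℂ) * ((nrm (pr r') : ℂ) - 1) = (wq (pr r') : ℂ) := by
    have h7 : nrm (pr r') = 4 * wq (pr r') + 1 := by unfold wq; omega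
    rw [h7]; push_cast; ring
  rw [h4, h5, hcard, h6] at h3
  rw [← h3] at c1
  exact c1.trans (cg_nat_odd h2 hw)

include h2 h in
/-- **the main congruence** -/
theorem MG_cgx (hPAR : S_PAR) (hp : PF pr) {w : ℕ} {g : ℂ → ℂ} (G : GF L w g)
    (hg : ∀ x : ℂ, OT L x → Cg v (g x) 1) {c : ZI} (hcc : ∀ i, ¬ pr i ∣ c)
    (φ : Finset ι → (ι → ℕ) → ι → ℂ)
    (hφ1 : ∀ (V : Finset ι) (e : ι → ℕ) (i : ι), i ∈ V → e i = 0 → (V.erase i).Nonempty →
      Wt pr V e % 4 = w → ∀ [Fintype (RQ (DD pr V))] [Fintype (RQ (DD pr (V.erase i)))],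
      MG g c Ω pr V e = MG g c Ω pr (V.erase i) e * φ (V.erase i) e i)
    (hφ2 : ∀ (V : Finset ι) (e : ι → ℕ) (i : ι), i ∉ V → Wt pr V e % 4 = w →
      Cg v (φ V e i / (1 + I)) (uu (wt pr i + ∑ u ∈ Od V e, em pr u i))) (r : ι) (hwr : wt pr r = 1) :
    ∀ (V : Finset ι) (e : ι → ℕ), r ∈ V → Wt pr V e % 4 = w →
    ∀ [Fintype (RQ (DD pr V))],
      Cg v (MG g c Ω pr V e / (1 + I) ^ (V.card - 1)) (uu (TX pr V (Od V e))) := by
  classical
  intro V
  induction V using Finset.strongInduction with
  | H V ihV =>
    intro e hr hW i0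
    have h1I : (1 + I : ℂ) ≠ 0 := one_I_ne
    have hw : wq (pr r) % 2 = 1 := by
      rw [wt_wq hp] at hwr
      exact Nat.odd_iff.1 ((ZMod.natCast_eq_one_iff_odd).1 hwr)
    have hcard : 1 ≤ V.card := Finset.card_pos.2 ⟨r, hr⟩
    -- the inner induction
    suffices H : ∀ n : ℕ, ∀ e : ι → ℕ, ∑ i ∈ V.erase r, e i = n → Wt pr V e % 4 = w →
        Cg v (MG g c Ω pr V e / (1 + I) ^ (V.card - 1)) (uu (TX pr V (Od V e))) from H _ e rfl hW
    clear hW e
    intro n
    induction n using Nat.strong_induction_on with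
    | _ n ihn =>
      intro e hn hW
      by_cases hc1 : V.card = 1
      · -- one prime
        obtain ⟨a, ha⟩ := Finset.card_eq_one.1 hc1
        have har : a = r := by rw [ha, Finset.mem_singleton] at hr; exact hr.symm
        subst har
        subst ha
        have c1 := MG_singlex h2 h hp G hg hcc hw hW
        have hOa : Od {a} e ⊆ {a} := Finset.filter_subset _ _
        unfold TX
        rw [det_single (wt pr) (Y699.em pr) (em_self hp) hwr hOa, uu_one,
          Finset.card_singleton, Nat.sub_self, pow_zero, div_one]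
        exact c1
      · have hc2 : 2 ≤ V.card := by omega
        by_cases h0 : ∃ i ∈ V.erase r, e i = 0
        · -- a vanishing exponent
          obtain ⟨i, hi', hei⟩ := h0
          have hi : i ∈ V := Finset.mem_of_mem_erase hi'
          have hir : i ≠ r := (Finset.mem_erase.1 hi').1
          have hrV : r ∈ V.erase i := Finset.mem_erase.2 ⟨hir.symm, hr⟩
          have hfin := H385.he1_finite (DD_ne hp (V.erase i))
          let _ := Fintype.ofFinite (RQ (DD pr (V.erase i)))
          have hWe : Wt pr (V.erase i) e = Wt pr V e := by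
            unfold Wt
            rw [← Finset.add_sum_erase V _ hi, hei, zero_mul, zero_add]
          have c1 := ihV (V.erase i) (Finset.erase_ssubset hi) e hrV (by rw [hWe]; exact hW)
          have c2 := hφ2 (V.erase i) e i (Finset.notMem_erase i V) (by rw [hWe]; exact hW)
          have c3 := c1.mul c2
          rw [← uu_mul] at c3
          have hOd : Od (V.erase i) e = Od V e := by
            unfold Od
            ext j
            rw [Finset.mem_filter, Finset.mem_filter, Finset.mem_erase]
            constructor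
            · rintro ⟨⟨a1, a2⟩, a3⟩; exact ⟨a2, a3⟩
            · rintro ⟨a2, a3⟩
              refine ⟨⟨?_, a2⟩, a3⟩
              rintro rfl
              rw [hei] at a3
              exact absurd a3 (by norm_num)
          have hiO : i ∉ Od V e := by
            unfold Od
            rw [Finset.mem_filter]
            rintro ⟨-, a3⟩
            rw [hei] at a3
            exact absurd a3 (by norm_num)
          have hOs : Od V e ⊆ V := Finset.filter_subset _ _
          have hOs' : Od V e ⊆ V.erase i := by
            rw [← hOd]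
            exact Finset.filter_subset _ _
          have e1 : TX pr (V.erase i) (Od (V.erase i) e) * (wt pr i + ∑ u ∈ Od (V.erase i) e, em pr u i) =
              TX pr V (Od V e) := by
            unfold TX
            rw [hOd, Ff.det_MM (wt pr) (em pr) hOs, Ff.det_MM (wt pr) (em pr) hOs', mul_assoc]
            congr 1
            have e2 : V \ Od V e = insert i ((V.erase i) \ Od V e) := by
              ext j
              rw [Finset.mem_insert, Finset.mem_sdiff, Finset.mem_sdiff, Finset.mem_erase]
              constructor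
              · rintro ⟨a1, a2⟩
                by_cases hji : j = i
                · exact Or.inl hji
                · exact Or.inr ⟨⟨hji, a1⟩, a2⟩
              · rintro (rfl | ⟨⟨a1, a2⟩, a3⟩)
                · exact ⟨hi, hiO⟩
                · exact ⟨a2, a3⟩
            rw [e2, Finset.prod_insert (by simp), mul_comm]
            rfl
          rw [e1] at c3
          have e3 : MG g c Ω pr (V.erase i) e / (1 + I) ^ ((V.erase i).card - 1) *
              (φ (V.erase i) e i / (1 + I)) =
              MG g c Ω pr V e / (1 + I) ^ (V.card - 1) := by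
            rw [hφ1 V e i hi hei ⟨r, hrV⟩ hW, Finset.card_erase_of_mem hi]
            have e4 : V.card - 1 = (V.card - 1 - 1) + 1 := by omega
            rw [e4, Nat.add_sub_cancel, pow_succ]
            field_simp
          rw [e3] at c3
          exact c3
        · -- all exponents are positive
          push Not at h0
          have he : ∀ i ∈ V.erase r, 1 ≤ e i := fun i hi =>
            Nat.one_le_iff_ne_zero.2 (h0 i hi)
          set X : Finset ι → ℂ := fun S => MG g c Ω pr V (es pr r e S) / (1 + I) ^ (V.card - 1) with hX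
          set TS : Finset ι → ZMod 2 := fun S => TX pr V (Od V (es pr r e S)) with hTS
          have hWS : ∀ S ⊆ V.erase r, Wt pr V (es pr r e S) % 4 = w := by
            intro S hS
            rw [es_Wt hr hw he hS, hW]
          have hIH : ∀ S ∈ (V.erase r).powerset.erase ∅, Cg v (X S) (uu (TS S)) := by
            intro S hS
            rw [Finset.mem_erase, Finset.mem_powerset] at hS
            refine ihn (∑ i ∈ V.erase r, es pr r e S i) ?_ (es pr r e S) rfl (hWS S hS.2)
            rw [← hn]
            obtain ⟨j, hj⟩ := Finset.nonempty_iff_ne_empty.2 hS.1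
            refine Finset.sum_lt_sum (fun i hi => ?_) ⟨j, hS.2 hj, ?_⟩
            · unfold es
              rw [if_neg (Finset.mem_erase.1 hi).1]
              split_ifs
              · omega
              · exact le_rfl
            · unfold es
              rw [if_neg (Finset.mem_erase.1 (hS.2 hj)).1, if_pos hj]
              have := he j (hS.2 hj)
              omega
          have hR := rel_cgx h2 h hp G hg hcc hr hw he hW hc2
          have hmem : (∅ : Finset ι) ∈ (V.erase r).powerset := Finset.empty_mem_powerset _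
          have c1 : Cg v (∑ S ∈ (V.erase r).powerset, (-1) ^ S.card * X S) 0 := Cg.zero hR
          have c2 : Cg v (∑ S ∈ (V.erase r).powerset.erase ∅, (-1) ^ S.card * X S)
              (∑ S ∈ (V.erase r).powerset.erase ∅, uu (TS S)) :=
            Cg.sum _ fun S hS => cg_sign h2 _ (hIH S hS)
          have c3 := (c1.sub c2)
          rw [← Finset.add_sum_erase _ _ hmem, add_sub_cancel_right, Finset.card_empty, pow_zero,
            one_mul, zero_sub] at c3
          -- the sum of the target values
          have htot : ∑ S ∈ (V.erase r).powerset, TS S = 0 := by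
            have hpar : ∀ n : ℕ, n % 4 = w → ((n : ℕ) : ZMod 2) = ((w : ℕ) : ZMod 2) := by
              intro n hn
              rw [ZMod.natCast_eq_natCast_iff]
              show n % 2 = w % 2
              omega
            have h5 := sum_reindexx (w := wt pr) hr hwr ((w : ℕ) : ZMod 2)
              (fun O => TX pr V O) (fun S => Od V (es pr r e S)) (Od V e)
              (fun S _ => Finset.filter_subset _ _)
              (fun S hS => by rw [Od_wtx hp, hpar _ (hWS S hS)])
              (fun S hS j hj => by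
                have hjV := Finset.mem_of_mem_erase hj
                have hjr := (Finset.mem_erase.1 hj).1
                have hej := he j hj
                unfold Od
                rw [Finset.mem_filter, Finset.mem_filter]
                unfold es
                rw [if_neg hjr]
                by_cases hjS : j ∈ S
                · simp only [hjS, hjV, true_and, if_true, iff_true]
                  omega
                · simp only [hjS, hjV, true_and, if_false, iff_false, not_not])
            rw [hTS]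
            rw [h5]
            exact hPAR ι (wt pr) (em pr) (em_self hp) (em_symm hp) V hc2 _
          rw [← Finset.add_sum_erase _ _ hmem] at htot
          have e5 : ∑ S ∈ (V.erase r).powerset.erase ∅, TS S = TS ∅ := by
            have : TS ∅ + TS ∅ = 0 := CharTwo.add_self_eq_zero _
            linear_combination htot - this
          have c4 : Cg v (-∑ S ∈ (V.erase r).powerset.erase ∅, uu (TS S)) (uu (TS ∅)) := by
            have c5 := (uu_sum h2 ((V.erase r).powerset.erase ∅) TS).symm
            rw [e5] at c5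
            exact c5.neg.trans (uu_neg' h2 _)
          have c6 := c3.trans c4
          rw [hX, hTS] at c6
          simp only [es_empty] at c6
          exact c6

end val

/-- **S_MGX** -/
theorem t_MGX (hPAR : S_PAR) : S_MGX := by
  intro L Ω h Γ _ v h2 ι _ _ pr hp w hw c hcc g hper him hg φ hφ1 hφ2 V e ⟨r, hr, hwr⟩ hW _
  exact MG_cgx h2 h hPAR hp ⟨hw, hper, him⟩ hg hcc φ hφ1 hφ2 r hwr V e hr hW

end Pool.Agent.L7h97.QX
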