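import Pool.Agent.L7h3.QX.Stm
import Pool.Agent.L7h3.MQ.Ae

/-!
# Project QX (helper3), REX (helper97): quartic reciprocity with a unit
-/

set_option autoImplicit false
set_option linter.unusedSectionVars false
set_option linter.unusedVariables false

namespace Pool.Agent.L7h97.QX

open Pool.Agent.Y699
open Pool.Agent.TH936.CM
open Pool.Agent.L7h3.MQ (DE TE)
open Pool.Agent.L7h3.QX
open H385 (ZI RQ im1 nrm)

/-- **S_REX** -/
theorem t_REX : S_REX := by
  intro J ι _ pr hp V e k z hz hzD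
  have e1 : -(im1 ^ k * DE pr V e) = ((-1) * im1 ^ k) * DE pr V e := by ring
  have e2 : q4 z (DE pr V e) = ∏ i ∈ V, q4 z (pr i) ^ e i := by
    unfold DE
    rw [q4_prod hz]
    exact Finset.prod_congr rfl fun i _ => q4_pow hz _ _
  have e0 : c4 pr V e z = ∏ i ∈ V, q4 (pr i) z ^ e i := by
    unfold c4
    refine Finset.prod_congr rfl fun i hi => ?_
    unfold fe
    rw [if_neg]
    intro h
    exact hzD i hi ((hp.pp i).eq_of_dvd hz h).symm
  have e5 : nrm z / 4 = wq z := rfl
  have hi2 : (im1 : ZI) ^ 2 = -1 := by decide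
  rw [e1, q4_mul hz, q4_mul hz, q4_neg_one hz, q4_pow hz, q4_unit hz im1_norm, e2, e0, e5]
  have e3 : ∏ i ∈ V, q4 z (pr i) ^ e i = (∏ i ∈ V, q4 (pr i) z ^ e i) * (-1) ^ (wq z * Wt pr V e) := by
    unfold Wt
    rw [Finset.mul_sum, ← Finset.prod_pow_eq_pow_sum, ← Finset.prod_mul_distrib]
    refine Finset.prod_congr rfl fun i hi => ?_
    rw [q4_rec J hz (hp.pp i) (hzD i hi), mul_pow, ← pow_mul]
    congr 2
    unfold wq
    ring
  rw [e3]
  unfold al
  rw [← hi2]
  ring

end Pool.Agent.L7h97.QX
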